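import Pool.Agent.H63.PK.Targets

/-!
# Row TWB of the board `pwk_modules` (`MP_559314_gt`)

From the torsion of the diagrams to the torsion of the indecomposables.
-/

set_option autoImplicit false

open Finset

namespace Pool.Agent.H80.PK

open Pool.Agent.H59.LIN Pool.Agent.H13.LN Pool.Agent.H63.PK

/-! ### words -/

theorem gw_nil {l : List ℕ} (h : Gw 0 l) : l = [] := by
  have h1 := h.1
  exact List.length_eq_zero_iff.1 (by omega)

theorem gw_app {a b : ℕ} {l m : List ℕ} (hl : Gw a l) (hm : Gw b m)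
    (hd : ∀ c ∈ l, c ∉ m) : Gw (a + b) (l ++ m) := by
  refine ⟨by rw [List.length_append, hl.1, hm.1]; ring, fun c hc => ?_⟩
  rw [List.count_append]
  rcases List.mem_append.1 hc with h | h
  · rw [hl.2 c h, List.count_eq_zero_of_not_mem (hd c h)]
  · rw [hm.2 c h, List.count_eq_zero_of_not_mem (fun h1 => hd c h1 h)]

theorem gw_map {d : ℕ} {l : List ℕ} (h : Gw d l) {f : ℕ → ℕ} (hf : Function.Injective f) :
    Gw d (l.map f) := by
  refine ⟨by rw [List.length_map, h.1], fun c hc => ?_⟩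
  obtain ⟨a, ha, rfl⟩ := List.mem_map.1 hc
  rw [List.count_map_of_injective _ _ hf, h.2 a ha]

theorem ws_map {A B : Type} [AddCommGroup A] [AddCommGroup B] (φ : A →+ B) {d : ℕ}
    {W : List ℕ → A} (h : WS d W) : WS d (fun l => φ (W l)) := by
  refine ⟨fun l f h1 h2 => ?_, fun a l h1 => ?_, fun A B a h1 => ?_, fun A B C a b h1 => ?_⟩
  · rw [h.relab l f h1 h2]
  · rw [h.rot a l h1]
  · rw [h.isol A B a h1, map_zero]
  · have h2 := congrArg φ (h.four A B C a b h1)
    rw [map_sub, map_add, map_sub, map_zero] at h2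
    exact h2

theorem ws_sub {A : Type} [AddCommGroup A] {d : ℕ} {W V : List ℕ → A} (h : WS d W)
    (h' : WS d V) : WS d (fun l => W l - V l) := by
  refine ⟨fun l f h1 h2 => ?_, fun a l h1 => ?_, fun A B a h1 => ?_, fun A B C a b h1 => ?_⟩
  · rw [h.relab l f h1 h2, h'.relab l f h1 h2]
  · rw [h.rot a l h1, h'.rot a l h1]
  · rw [h.isol A B a h1, h'.isol A B a h1, sub_zero]
  · have h2 := h.four A B C a b h1
    have h3 := h'.four A B C a b h1
    have h4 := congrArg₂ (fun s t => s - t) h2 h3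
    simp only [sub_zero] at h4
    rw [← h4]
    abel

theorem ind_ext {B : Type} [AddCommGroup B] {d : ℕ} (f g : Ind d →+ B)
    (h : ∀ l : GW d, f (QuotientAddGroup.mk (Finsupp.single l 1)) =
      g (QuotientAddGroup.mk (Finsupp.single l 1))) : ∀ a, f a = g a := by
  intro a
  induction a using QuotientAddGroup.induction_on with
  | H z =>
    have h1 : f.comp (QuotientAddGroup.mk' _) = g.comp (QuotientAddGroup.mk' _) := by
      apply Finsupp.addHom_ext'
      intro l
      apply AddMonoidHom.ext_int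
      exact h l
    exact DFunLike.congr_fun h1 z

/-! ### the algebra -/

theorem cls_relab (hALG : T_ALG) (R : Type) [CommRing R] {d : ℕ} (l l' : GW d) (f : ℕ → ℕ)
    (hf : Set.InjOn f {a | a ∈ l.1}) (h : l'.1 = l.1.map f) : cls R l' = cls R l := by
  have h1 := (hALG R).2.1 d _ (Rel.relab l l' f hf h)
  rw [Finsupp.sum_sub_index (fun a b c => by rw [Int.cast_sub, sub_smul]),
    Finsupp.sum_single_index (by rw [Int.cast_zero, zero_smul]),
    Finsupp.sum_single_index (by rw [Int.cast_zero, zero_smul]), Int.cast_one, one_smul,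
    one_smul] at h1
  exact sub_eq_zero.1 h1

theorem cls_mul (hALG : T_ALG) (R : Type) [CommRing R] {a b : ℕ} (l : GW a) (m : GW b) :
    ∃ (m' : GW b) (n : GW (a + b)), n.1 = l.1 ++ m'.1 ∧ cls R n = cls R l * cls R m := by
  obtain ⟨N, hN⟩ : ∃ N : ℕ, ∀ c ∈ l.1, c < N := by
    refine ⟨l.1.toFinset.sup id + 1, fun c hc => Nat.lt_succ_of_le ?_⟩
    exact Finset.le_sup (f := id) (List.mem_toFinset.2 hc)
  have hinj : Function.Injective (fun c : ℕ => c + N) := fun c c' h => Nat.add_right_cancel h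
  let m' : GW b := ⟨m.1.map (fun c => c + N), gw_map m.2 hinj⟩
  have hd : ∀ c ∈ l.1, c ∉ m'.1 := by
    intro c hc h1
    obtain ⟨e, _, he⟩ := List.mem_map.1 h1
    have h2 := hN c hc
    have h3 : e + N = c := he
    omega
  let n : GW (a + b) := ⟨l.1 ++ m'.1, gw_app l.2 m'.2 hd⟩
  refine ⟨m', n, rfl, ?_⟩
  rw [(hALG R).2.2.1 a b (a + b) l m' n rfl,
    cls_relab hALG R m m' (fun c => c + N) hinj.injOn rfl]

theorem adeg_one (hALG : T_ALG) (R : Type) [CommRing R] : (1 : Alg R) ∈ Adeg R 0 := by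
  have h : Gw 0 [] := ⟨rfl, fun a ha => absurd ha List.not_mem_nil⟩
  rw [← (hALG R).2.2.2.1 ⟨[], h⟩]
  exact Submodule.subset_span ⟨_, rfl⟩

theorem ya_mem (R : Type) [CommRing R] {d : ℕ} (y : GW d →₀ R) : ya R y ∈ Adeg R d :=
  Submodule.sum_mem _ fun l _ => Submodule.smul_mem _ _ (Submodule.subset_span ⟨l, rfl⟩)

theorem ph_mon (hALG : T_ALG) (R : Type) [CommRing R] {r : ℕ → ℕ}
    (y : (d : ℕ) → Fin (r d) → GW d →₀ R) (α : (Σ d : ℕ, Fin (r d)) →₀ ℕ) :
    Ph R y (MvPolynomial.monomial α 1) ∈ Adeg R (Finsupp.weight (wv r) α) := by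
  have key : ∀ (k : ℕ) (α : (Σ d : ℕ, Fin (r d)) →₀ ℕ), α.degree = k →
      Ph R y (MvPolynomial.monomial α 1) ∈ Adeg R (Finsupp.weight (wv r) α) := by
    intro k
    induction k with
    | zero =>
      intro α h
      have h0 : α = 0 := (Finsupp.degree_eq_zero_iff α).1 h
      subst h0
      rw [map_zero]
      have h1 : (MvPolynomial.monomial (0 : (Σ d : ℕ, Fin (r d)) →₀ ℕ) (1 : R)) = 1 := rfl
      rw [h1, map_one]
      exact adeg_one hALG R
    | succ k ih =>
      intro α h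
      have h0 : α ≠ 0 := by
        rintro rfl
        rw [map_zero] at h
        omega
      obtain ⟨j, hj⟩ := Finsupp.ne_iff.1 h0
      rw [Finsupp.zero_apply] at hj
      have h1 : α - Finsupp.single j 1 + Finsupp.single j 1 = α := by
        apply Finsupp.ext
        intro i
        rw [Finsupp.add_apply, Finsupp.tsub_apply, Finsupp.single_apply]
        split_ifs with hi
        · subst hi; omega
        · omega
      have h2 : (α - Finsupp.single j 1).degree = k := by
        have h3 := congrArg Finsupp.degree h1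
        rw [map_add, Finsupp.degree_single, h] at h3
        omega
      have h3 := ih _ h2
      have h4 : MvPolynomial.monomial α (1 : R) =
          MvPolynomial.monomial (α - Finsupp.single j 1) 1 * MvPolynomial.X j := by
        rw [MvPolynomial.X, MvPolynomial.monomial_mul, h1, one_mul]
      have h5 : Finsupp.weight (wv r) α =
          Finsupp.weight (wv r) (α - Finsupp.single j 1) + j.1 := by
        conv_lhs => rw [← h1]
        rw [map_add, Finsupp.weight_single, one_smul]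
        rfl
      rw [h4, map_mul, h5]
      refine (hALG R).2.2.2.2.1 _ _ _ _ h3 ?_
      have h6 : Ph R y (MvPolynomial.X j) = ya R (y j.1 j.2) := by
        rw [Ph, MvPolynomial.aeval_X]
      rw [h6]
      exact ya_mem R _
  exact key _ α rfl

/-- a linear form given by a weight system of degree `n` vanishes in the other degrees -/
theorem f_ne (R : Type) [CommRing R] {n : ℕ} {W : List ℕ → R} (F : Alg R →ₗ[R] R)
    (hF : ∀ (e : ℕ) (l : GW e), F (cls R l) = if e = n then W l.1 else 0) {e : ℕ} (he : e ≠ n)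
    {z : Alg R} (hz : z ∈ Adeg R e) : F z = 0 := by
  have h1 : Adeg R e ≤ LinearMap.ker F := by
    refine Submodule.span_le.2 ?_
    rintro _ ⟨l, rfl⟩
    show F (cls R l) = 0
    rw [hF, if_neg he]
  exact h1 hz

/-- the products of the elements of the degrees `a` and `b` -/
theorem f_mul (hALG : T_ALG) (R : Type) [CommRing R] (q : R) {n : ℕ} {W : List ℕ → R}
    (F : Alg R →ₗ[R] R)
    (hF : ∀ (e : ℕ) (l : GW e), F (cls R l) = if e = n then W l.1 else 0)
    (hW : ∀ (a b : ℕ) (l m : List ℕ), 0 < a → 0 < b → Gw a l → Gw b m → Gw n (l ++ m) →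
      q ∣ W (l ++ m)) {a b : ℕ} (ha : 0 < a) (hb : 0 < b) (hab : a + b = n)
    {z z' : Alg R} (hz : z ∈ Adeg R a) (hz' : z' ∈ Adeg R b) : q ∣ F (z * z') := by
  subst hab
  unfold Adeg at hz hz'
  induction hz using Submodule.span_induction with
  | mem z hz =>
    obtain ⟨l, rfl⟩ := hz
    induction hz' using Submodule.span_induction with
    | mem z' hz' =>
      obtain ⟨m, rfl⟩ := hz'
      obtain ⟨m', n, h1, h2⟩ := cls_mul hALG R l m
      simp only
      rw [← h2, hF, if_pos rfl, h1]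
      refine hW a b _ _ ha hb l.2 m'.2 ?_
      rw [← h1]
      exact n.2
    | zero => rw [mul_zero, map_zero]; exact dvd_zero _
    | add z1 z2 _ _ h1 h2 => rw [mul_add, map_add]; exact dvd_add h1 h2
    | smul c z1 _ h1 =>
      rw [mul_smul_comm, map_smul, smul_eq_mul]
      exact Dvd.dvd.mul_left h1 c
  | zero => rw [zero_mul, map_zero]; exact dvd_zero _
  | add z1 z2 _ _ h1 h2 => rw [add_mul, map_add]; exact dvd_add h1 h2
  | smul c z1 _ h1 =>
    rw [smul_mul_assoc, map_smul, smul_eq_mul]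
    exact Dvd.dvd.mul_left h1 c

/-- the values on the monomials -/
theorem f_mon (hALG : T_ALG) (R : Type) [CommRing R] (q : R) {n : ℕ} (hn : 0 < n)
    {W : List ℕ → R} (F : Alg R →ₗ[R] R)
    (hF : ∀ (e : ℕ) (l : GW e), F (cls R l) = if e = n then W l.1 else 0)
    (hW : ∀ (a b : ℕ) (l m : List ℕ), 0 < a → 0 < b → Gw a l → Gw b m → Gw n (l ++ m) →
      q ∣ W (l ++ m)) {r : ℕ → ℕ} (y : (d : ℕ) → Fin (r d) → GW d →₀ R) (h0 : r 0 = 0)
    (hr : ∀ d, ¬ d < n → r d = 0) (α : (Σ d : ℕ, Fin (r d)) →₀ ℕ) :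
    q ∣ F (Ph R y (MvPolynomial.monomial α 1)) := by
  by_cases hα : Finsupp.weight (wv r) α = n
  · have h1 : α ≠ 0 := by
      rintro rfl
      rw [map_zero] at hα
      omega
    obtain ⟨j, hj⟩ := Finsupp.ne_iff.1 h1
    rw [Finsupp.zero_apply] at hj
    have hj0 : 0 < j.1 := by
      rcases Nat.eq_zero_or_pos j.1 with h | h
      · exfalso
        obtain ⟨d, i⟩ := j
        simp only at h
        subst h
        rw [h0] at i
        exact i.elim0
      · exact h
    have hjn : j.1 < n := by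
      by_contra h
      have h2 := hr j.1 h
      obtain ⟨d, i⟩ := j
      simp only at h2
      rw [h2] at i
      exact i.elim0
    have h2 : α - Finsupp.single j 1 + Finsupp.single j 1 = α := by
      apply Finsupp.ext
      intro i
      rw [Finsupp.add_apply, Finsupp.tsub_apply, Finsupp.single_apply]
      split_ifs with hi
      · subst hi; omega
      · omega
    have h4 : MvPolynomial.monomial α (1 : R) =
        MvPolynomial.monomial (α - Finsupp.single j 1) 1 * MvPolynomial.X j := by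
      rw [MvPolynomial.X, MvPolynomial.monomial_mul, h2, one_mul]
    have h5 : Finsupp.weight (wv r) α =
        Finsupp.weight (wv r) (α - Finsupp.single j 1) + j.1 := by
      conv_lhs => rw [← h2]
      rw [map_add, Finsupp.weight_single, one_smul]
      rfl
    have h6 : Ph R y (MvPolynomial.X j) = ya R (y j.1 j.2) := by
      rw [Ph, MvPolynomial.aeval_X]
    rw [h4, map_mul, h6]
    exact f_mul hALG R q F hF hW (by omega) hj0 (by rw [← h5, hα]) (ph_mon hALG R y _)
      (ya_mem R _)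
  · rw [f_ne R F hF hα (ph_mon hALG R y α)]
    exact dvd_zero _

/-- The correction: a weight system which is divisible by `q` on the connected sums is congruent
to a primitive weight system. -/
theorem corr (hFUN : T_FUN) (hALG : T_ALG) (hEXP : T_EXP) (hGXP : T_GXP)
    (hTHE : T_THE) (hISO : T_ISO) (R : Type) [CommRing R] (q : R) {n : ℕ} (hn : 0 < n)
    {W : List ℕ → R} (hWS : WS n W)
    (hW : ∀ (a b : ℕ) (l m : List ℕ), 0 < a → 0 < b → Gw a l → Gw b m → Gw n (l ++ m) →
      q ∣ W (l ++ m)) {r : ℕ → ℕ} (x : (d : ℕ) → Fin (r d) → List ℕ → R)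
    (y : (d : ℕ) → Fin (r d) → GW d →₀ R) (hD : Dat R r x y) (hS : Spn R r x y (n - 1))
    (hr : ∀ d, ¬ d < n → r d = 0) :
    ∃ V : List ℕ → R, PWS n V ∧ ∀ l, q ∣ W l - V l := by
  obtain ⟨F, hF⟩ := hFUN R R n W hWS
  obtain ⟨Ψ, hΨ, hb⟩ := hTHE R r x y hD
  have h1 := f_mon hALG R q hn F hF hW y hD.zero hr
  choose c hc using h1
  let L0 : MvPolynomial (Σ d : ℕ, Fin (r d)) R →ₗ[R] R :=
    (MvPolynomial.basisMonomials (Σ d : ℕ, Fin (r d)) R).constr R c
  have hL0 : ∀ f, F (Ph R y f) = q * L0 f := by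
    intro f
    have h2 : F ∘ₗ (Ph R y).toLinearMap = q • L0 := by
      apply (MvPolynomial.basisMonomials (Σ d : ℕ, Fin (r d)) R).ext
      intro α
      rw [MvPolynomial.coe_basisMonomials]
      show F (Ph R y (MvPolynomial.monomial α 1)) = q • L0 (MvPolynomial.monomial α 1)
      have h3 : L0 (MvPolynomial.monomial α 1) = c α := by
        have h4 := (MvPolynomial.basisMonomials (Σ d : ℕ, Fin (r d)) R).constr_basis R c α
        rw [MvPolynomial.coe_basisMonomials] at h4
        exact h4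
      rw [h3, hc α, smul_eq_mul]
    exact DFunLike.congr_fun h2 f
  let e := AlgEquiv.ofBijective (Ψ.comp (Ph R y)) hb
  have he : ∀ f, e.symm (Ψ (Ph R y f)) = f := fun f => e.symm_apply_apply f
  have hgx : ∀ d, PWS d (gx x) := hGXP R r x hD.pws
  have hEx := hEXP _ (gx x) (fun d => (hgx d).ws)
  let φ : MvPolynomial (Σ d : ℕ, Fin (r d)) R →+ R :=
    ((q • (L0 ∘ₗ e.symm.toLinearMap)) : MvPolynomial (Σ d : ℕ, Fin (r d)) R →ₗ[R] R).toAddMonoidHom
  have hφ : ∀ f, φ f = q * L0 (e.symm f) := fun f => rfl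
  have hws : WS n (fun l => W l - φ (Ex (gx x) l)) := ws_sub hWS (ws_map φ (hEx.1 n))
  refine ⟨fun l => W l - φ (Ex (gx x) l), ⟨hws, ?_⟩, fun l => ?_⟩
  · intro a b l m ha hb' hl hm hlm
    have hab : a + b = n := by
      have h2 := hlm.1
      rw [List.length_append, hl.1, hm.1] at h2
      omega
    have h3 := (hALG R).2.2.1 a b n ⟨l, hl⟩ ⟨m, hm⟩ ⟨l ++ m, hlm⟩ rfl
    obtain ⟨f1, hf1⟩ := hISO R r x y (n - 1) hS a (by omega) (cls R (⟨l, hl⟩ : GW a))
      (Submodule.subset_span ⟨_, rfl⟩)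
    obtain ⟨f2, hf2⟩ := hISO R r x y (n - 1) hS b (by omega) (cls R (⟨m, hm⟩ : GW b))
      (Submodule.subset_span ⟨_, rfl⟩)
    rw [← hf1, ← hf2, ← map_mul] at h3
    have h4 := hF n ⟨l ++ m, hlm⟩
    rw [if_pos rfl, h3, hL0] at h4
    have h5 := hΨ n ⟨l ++ m, hlm⟩
    rw [h3] at h5
    show W (l ++ m) - φ (Ex (gx x) (l ++ m)) = 0
    simp only at h4 h5
    rw [← h4, ← h5, hφ, he, sub_self]
  · show q ∣ W l - (W l - φ (Ex (gx x) l))
    rw [sub_sub_cancel, hφ]
    exact Dvd.intro _ rfl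

/-- (TWB) from diagrams to indecomposables. -/
theorem twb (hFUN : T_FUN) (hALG : T_ALG) (hEXP : T_EXP) (hGXP : T_GXP) (_hEXH : T_EXH)
    (hTHE : T_THE) (hISO : T_ISO) (hHMG : T_HMG) (hBSR : T_BSR) (hTFL : T_TFL) : T_TWB := by
  intro p hp n htor hL
  have : Fact p.Prime := ⟨hp⟩
  rcases Nat.eq_zero_or_pos n with h0 | hn
  · subst h0
    refine (hTFL (Ind 0) (hHMG 0).1 p hp).2 ℤ (Int.castAddHom (ZMod p)) ?_ ?_
    · intro b hb
      rw [nsmul_eq_mul] at hb
      rcases mul_eq_zero.1 hb with h | h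
      · exact absurd (Nat.cast_eq_zero.1 h) hp.ne_zero
      · exact h
    · intro f
      obtain ⟨W, hW, hfW⟩ := ((hHMG 0).2 (ZMod p)).2 f
      obtain ⟨W', hW', hred⟩ := hL W hW.ws
      have hP : PWS 0 W' := by
        refine ⟨hW', ?_⟩
        intro a b l m ha hb hl hm hlm
        exfalso
        have h2 := hlm.1
        rw [List.length_append, hl.1, hm.1] at h2
        omega
      obtain ⟨g, hg⟩ := ((hHMG 0).2 ℤ).1 W' hP
      refine ⟨g, ind_ext ((Int.castAddHom (ZMod p)).comp g) f fun l => ?_⟩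
      show ((g _ : ℤ) : ZMod p) = _
      rw [hg, hfW]
      exact hred l.1 l.2
  · refine (hTFL (Ind n) (hHMG n).1 p hp).2 ℤ_[p]
      (PadicInt.toZMod : ℤ_[p] →+* ZMod p).toAddMonoidHom ?_ ?_
    · intro b hb
      rw [nsmul_eq_mul] at hb
      rcases mul_eq_zero.1 hb with h | h
      · exact absurd (Nat.cast_eq_zero.1 h) hp.ne_zero
      · exact h
    · intro f
      obtain ⟨r, x, y, hD, hS, hr⟩ := exDat ℤ_[p] (fun d => d < n) (by
        intro d hd _
        refine hBSR ℤ_[p] d fun q hq => ?_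
        by_cases hqp : q = p
        · subst hqp
          exact Or.inr (htor d hd)
        · left
          rw [PadicInt.isUnit_iff, PadicInt.norm_natCast_eq_one_iff]
          exact (Nat.coprime_primes hp hq).2 (Ne.symm hqp))
      obtain ⟨W, hW, hfW⟩ := ((hHMG n).2 (ZMod p)).2 f
      obtain ⟨W1, hW1, hred⟩ := hL W hW.ws
      have hWS2 : WS n (fun l => ((W1 l : ℤ) : ℤ_[p])) := ws_map (Int.castAddHom ℤ_[p]) hW1
      have hdiv : ∀ (a b : ℕ) (l m : List ℕ), 0 < a → 0 < b → Gw a l → Gw b m →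
          Gw n (l ++ m) → ((p : ℕ) : ℤ_[p]) ∣ ((W1 (l ++ m) : ℤ) : ℤ_[p]) := by
        intro a b l m ha hb hl hm hlm
        have h1 := hred (l ++ m) hlm
        rw [hW.prim a b l m ha hb hl hm hlm, ZMod.intCast_zmod_eq_zero_iff_dvd] at h1
        obtain ⟨c, hc⟩ := h1
        refine ⟨(c : ℤ_[p]), ?_⟩
        rw [hc]
        push_cast
        rfl
      obtain ⟨V, hV, hVW⟩ := corr hFUN hALG hEXP hGXP hTHE hISO ℤ_[p] ((p : ℕ) : ℤ_[p]) hn hWS2
        hdiv x y hD (hS (n - 1) (by omega)) hr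
      obtain ⟨g, hg⟩ := ((hHMG n).2 ℤ_[p]).1 V hV
      refine ⟨g, ind_ext ((PadicInt.toZMod : ℤ_[p] →+* ZMod p).toAddMonoidHom.comp g) f
        fun l => ?_⟩
      show (PadicInt.toZMod (g _) : ZMod p) = _
      rw [hg, hfW, ← hred l.1 l.2]
      obtain ⟨c, hc⟩ := hVW l.1
      have h1 : V l.1 = ((W1 l.1 : ℤ) : ℤ_[p]) - (p : ℤ_[p]) * c := by
        rw [← hc]; ring
      rw [h1, map_sub, map_mul, map_intCast, map_natCast, ZMod.natCast_self, zero_mul, sub_zero]

end Pool.Agent.H80.PK
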