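import Pool.Agent.H97.PK.Targets

open MeasureTheory Set Metric Real Filter Topology
open scoped ENNReal

namespace Pool.Agent.H80.PK

open Pool.Agent.H97.PK

section single

variable {Ω : Type} [MeasurableSpace Ω] {μ : Measure Ω} {ι : Type} [Fintype ι] [Nonempty ι]

/-- the weighted maximum -/
noncomputable def mx (g : ι → Ω → ℝ) (v : ι → ℝ) (y : Ω) : ℝ :=
  Finset.univ.sup' Finset.univ_nonempty (fun i => v i * g i y)

/-- closed cell -/
def cl (g : ι → Ω → ℝ) (v : ι → ℝ) (i : ι) : Set Ω :=
  {y | ∀ j, j ≠ i → v j * g j y ≤ v i * g i y}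

/-- open cell -/
def op (g : ι → Ω → ℝ) (v : ι → ℝ) (i : ι) : Set Ω :=
  {y | ∀ j, j ≠ i → v j * g j y < v i * g i y}

omit [Fintype ι] [Nonempty ι] in
theorem cl_meas [Countable ι] {g : ι → Ω → ℝ} (hm : ∀ i, Measurable (g i)) (v : ι → ℝ) (i : ι) :
    MeasurableSet (cl g v i) := by
  have : cl g v i = ⋂ j, ⋂ (_ : j ≠ i), {y | v j * g j y ≤ v i * g i y} := by
    ext y; simp [cl]
  rw [this]
  exact MeasurableSet.iInter fun j => MeasurableSet.iInter fun _ =>
    measurableSet_le ((hm j).const_mul _) ((hm i).const_mul _)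

omit [Fintype ι] [Nonempty ι] in
theorem op_meas [Countable ι] {g : ι → Ω → ℝ} (hm : ∀ i, Measurable (g i)) (v : ι → ℝ) (i : ι) :
    MeasurableSet (op g v i) := by
  have : op g v i = ⋂ j, ⋂ (_ : j ≠ i), {y | v j * g j y < v i * g i y} := by
    ext y; simp [op]
  rw [this]
  exact MeasurableSet.iInter fun j => MeasurableSet.iInter fun _ =>
    measurableSet_lt ((hm j).const_mul _) ((hm i).const_mul _)

theorem mx_meas {g : ι → Ω → ℝ} (hm : ∀ i, Measurable (g i)) (v : ι → ℝ) :
    Measurable (mx g v) := by
  have h : mx g v = Finset.univ.sup' Finset.univ_nonempty (fun i => fun y => v i * g i y) := by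
    funext y
    rw [Finset.sup'_apply]
    rfl
  rw [h]
  exact Finset.measurable_sup' Finset.univ_nonempty (fun i _ => (hm i).const_mul (v i))

theorem le_mx (g : ι → Ω → ℝ) (v : ι → ℝ) (y : Ω) (i : ι) : v i * g i y ≤ mx g v y :=
  Finset.le_sup' (fun i => v i * g i y) (Finset.mem_univ i)

theorem mx_attained (g : ι → Ω → ℝ) (v : ι → ℝ) (y : Ω) : ∃ i, mx g v y = v i * g i y := by
  obtain ⟨i, _, hi⟩ := Finset.exists_mem_eq_sup' (Finset.univ_nonempty (α := ι))
    (fun i => v i * g i y)
  exact ⟨i, hi⟩

theorem mx_lip {g : ι → Ω → ℝ} (hp : ∀ i y, 0 < g i y) (v w : ι → ℝ) (y : Ω) :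
    mx g v y - mx g w y ≤ ∑ i, |v i - w i| * g i y := by
  obtain ⟨i, hi⟩ := mx_attained g v y
  have h1 := le_mx g w y i
  have h2 : |v i - w i| * g i y ≤ ∑ i, |v i - w i| * g i y :=
    Finset.single_le_sum (f := fun i => |v i - w i| * g i y)
      (fun j _ => mul_nonneg (abs_nonneg _) (hp j y).le) (Finset.mem_univ i)
  have h3 : (v i - w i) * g i y ≤ |v i - w i| * g i y :=
    mul_le_mul_of_nonneg_right (le_abs_self _) (hp i y).le
  rw [hi]
  nlinarith

theorem mx_abs {g : ι → Ω → ℝ} (hp : ∀ i y, 0 < g i y) (v : ι → ℝ) (y : Ω) :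
    |mx g v y| ≤ ∑ i, |v i| * g i y := by
  obtain ⟨i, hi⟩ := mx_attained g v y
  rw [hi, abs_mul, abs_of_pos (hp i y)]
  exact Finset.single_le_sum (f := fun i => |v i| * g i y)
      (fun j _ => mul_nonneg (abs_nonneg _) (hp j y).le) (Finset.mem_univ i)

theorem mx_int {g : ι → Ω → ℝ} (hp : ∀ i y, 0 < g i y) (hm : ∀ i, Measurable (g i))
    (hi : ∀ i, Integrable (g i) μ) (v : ι → ℝ) : Integrable (mx g v) μ := by
  have h1 : Integrable (fun y => ∑ i, |v i| * g i y) μ :=
    integrable_finsetSum _ (fun i _ => (hi i).const_mul _)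
  refine h1.mono' (mx_meas hm v).aestronglyMeasurable ?_
  filter_upwards with y
  rw [Real.norm_eq_abs]
  exact mx_abs hp v y

theorem intmx_lip {g : ι → Ω → ℝ} (hp : ∀ i y, 0 < g i y) (hm : ∀ i, Measurable (g i))
    (hi : ∀ i, Integrable (g i) μ) (v w : ι → ℝ) :
    |(∫ y, mx g v y ∂μ) - ∫ y, mx g w y ∂μ| ≤ ∑ i, |v i - w i| * ∫ y, g i y ∂μ := by
  have key : ∀ v w : ι → ℝ, (∫ y, mx g v y ∂μ) - ∫ y, mx g w y ∂μ ≤
      ∑ i, |v i - w i| * ∫ y, g i y ∂μ := by
    intro v w
    rw [← integral_sub (mx_int hp hm hi v) (mx_int hp hm hi w)]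
    have h1 : ∑ i, |v i - w i| * ∫ y, g i y ∂μ = ∫ y, ∑ i, |v i - w i| * g i y ∂μ := by
      rw [integral_finsetSum _ (fun i _ => (hi i).const_mul _)]
      exact Finset.sum_congr rfl (fun i _ => (integral_const_mul _ _).symm)
    rw [h1]
    exact integral_mono ((mx_int hp hm hi v).sub (mx_int hp hm hi w))
      (integrable_finsetSum _ (fun i _ => (hi i).const_mul _)) (fun y => mx_lip hp v w y)
  rw [abs_le]
  constructor
  · have := key w v
    have h2 : ∑ i, |w i - v i| * ∫ y, g i y ∂μ = ∑ i, |v i - w i| * ∫ y, g i y ∂μ :=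
      Finset.sum_congr rfl (fun i _ => by rw [abs_sub_comm])
    linarith
  · exact key v w

/-- ties are null -/
theorem ae_noties {g : ι → Ω → ℝ}
    (ht : ∀ i j, i ≠ j → ∀ a : ℝ, 0 < a → μ {y | g i y = a * g j y} = 0)
    {v : ι → ℝ} (hv : ∀ i, 0 < v i) :
    ∀ᵐ y ∂μ, ∀ i j, i ≠ j → v i * g i y ≠ v j * g j y := by
  rw [ae_all_iff]; intro i
  rw [ae_all_iff]; intro j
  by_cases hij : i = j
  · filter_upwards with y h
    exact absurd hij h
  · have h0 := ht i j hij (v j / v i) (div_pos (hv j) (hv i))
    have h1 : ∀ᵐ y ∂μ, ¬ (g i y = v j / v i * g j y) := by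
      rw [ae_iff]
      simpa using h0
    filter_upwards [h1] with y hy _ h
    apply hy
    have := (hv i).ne'
    field_simp
    linarith

/-- convergence of the integrals over cells -/
theorem cell_tendsto {g : ι → Ω → ℝ} (hp : ∀ i y, 0 < g i y) (hm : ∀ i, Measurable (g i))
    (hi : ∀ i, Integrable (g i) μ)
    (ht : ∀ i j, i ≠ j → ∀ a : ℝ, 0 < a → μ {y | g i y = a * g j y} = 0)
    {v : ι → ℝ} (hv : ∀ i, 0 < v i) (w : ℕ → ι → ℝ)
    (hw : ∀ i, Tendsto (fun n => w n i) atTop (𝓝 (v i))) (i : ι) :
    Tendsto (fun n => ∫ y in cl g (w n) i, g i y ∂μ) atTop (𝓝 (∫ y in op g v i, g i y ∂μ)) := by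
  have e1 : ∀ n, ∫ y in cl g (w n) i, g i y ∂μ = ∫ y, (cl g (w n) i).indicator (g i) y ∂μ :=
    fun n => (integral_indicator (cl_meas hm _ i)).symm
  have e2 : ∫ y in op g v i, g i y ∂μ = ∫ y, (op g v i).indicator (g i) y ∂μ :=
    (integral_indicator (op_meas hm _ i)).symm
  rw [e2]
  simp_rw [e1]
  refine tendsto_integral_of_dominated_convergence (fun y => g i y) ?_ (hi i) ?_ ?_
  · intro n
    exact ((hm i).indicator (cl_meas hm _ i)).aestronglyMeasurable
  · intro n
    filter_upwards with y
    rw [Real.norm_eq_abs]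
    by_cases h : y ∈ cl g (w n) i
    · rw [indicator_of_mem h, abs_of_pos (hp i y)]
    · rw [indicator_of_notMem h, abs_zero]
      exact (hp i y).le
  · filter_upwards [ae_noties ht hv] with y hy
    have hlim : ∀ j, Tendsto (fun n => w n j * g j y) atTop (𝓝 (v j * g j y)) :=
      fun j => (hw j).mul_const _
    by_cases h : y ∈ op g v i
    · rw [indicator_of_mem h]
      have : ∀ᶠ n in atTop, y ∈ cl g (w n) i := by
        have h1 : ∀ j, ∀ᶠ n in atTop, j ≠ i → w n j * g j y ≤ w n i * g i y := by
          intro j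
          by_cases hj : j = i
          · filter_upwards with n h
            exact absurd hj h
          · have := (hlim j).eventually_lt (hlim i) (h j hj)
            filter_upwards [this] with n hn _
            exact hn.le
        exact (eventually_all.2 h1)
      refine tendsto_const_nhds.congr' ?_
      filter_upwards [this] with n hn
      rw [indicator_of_mem hn]
    · rw [indicator_of_notMem h]
      have : ∀ᶠ n in atTop, y ∉ cl g (w n) i := by
        have hex : ∃ j, j ≠ i ∧ v i * g i y < v j * g j y := by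
          simp only [op, mem_ofPred_eq, not_forall] at h
          obtain ⟨j, hj, h⟩ := h
          rw [not_lt] at h
          exact ⟨j, hj, lt_of_le_of_ne h (hy i j (Ne.symm hj))⟩
        obtain ⟨j, hj, hlt⟩ := hex
        have := (hlim i).eventually_lt (hlim j) hlt
        filter_upwards [this] with n hn hc
        exact absurd (hc j hj) (not_le.mpr hn)
      refine tendsto_const_nhds.congr' ?_
      filter_upwards [this] with n hn
      rw [indicator_of_notMem hn]

/-- increase of one weight -/
theorem mx_inc [DecidableEq ι] {g : ι → Ω → ℝ} (hp : ∀ i y, 0 < g i y) (v : ι → ℝ) (i : ι) (e : ℝ)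
    (he : 0 ≤ e) (y : Ω) :
    mx g (Function.update v i (v i + e)) y - mx g v y ≤
      e * (cl g (Function.update v i (v i + e)) i).indicator (g i) y := by
  obtain ⟨j, hj⟩ := mx_attained g (Function.update v i (v i + e)) y
  by_cases hc : y ∈ cl g (Function.update v i (v i + e)) i
  · rw [indicator_of_mem hc]
    have hmi : mx g (Function.update v i (v i + e)) y = (v i + e) * g i y := by
      apply le_antisymm
      · rw [hj]
        by_cases hji : j = i
        · subst hji
          rw [Function.update_self]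
        · have := hc j hji
          rwa [Function.update_self] at this
      · have := le_mx g (Function.update v i (v i + e)) y i
        rwa [Function.update_self] at this
    have := le_mx g v y i
    rw [hmi]
    nlinarith
  · rw [indicator_of_notMem hc]
    by_cases hji : j = i
    · exfalso
      apply hc
      intro l hl
      have := le_mx g (Function.update v i (v i + e)) y l
      rw [hj, hji] at this
      exact this
    · rw [hj, Function.update_of_ne hji]
      have := le_mx g v y j
      linarith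

/-- decrease of one weight -/
theorem mx_dec [DecidableEq ι] {g : ι → Ω → ℝ} (hp : ∀ i y, 0 < g i y) (v : ι → ℝ) (i : ι) (e : ℝ)
    (he : 0 ≤ e) (y : Ω) :
    mx g (Function.update v i (v i - e)) y - mx g v y ≤
      -(e * (cl g (Function.update v i (v i - e)) i).indicator (g i) y) := by
  obtain ⟨j, hj⟩ := mx_attained g (Function.update v i (v i - e)) y
  by_cases hc : y ∈ cl g (Function.update v i (v i - e)) i
  · rw [indicator_of_mem hc]
    have hmi : mx g (Function.update v i (v i - e)) y ≤ (v i - e) * g i y := by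
      rw [hj]
      by_cases hji : j = i
      · subst hji
        rw [Function.update_self]
      · have := hc j hji
        rwa [Function.update_self] at this
    have := le_mx g v y i
    nlinarith
  · rw [indicator_of_notMem hc]
    by_cases hji : j = i
    · subst hji
      rw [hj, Function.update_self]
      have := le_mx g v y j
      have h2 : 0 ≤ e * g j y := mul_nonneg he (hp j y).le
      nlinarith
    · rw [hj, Function.update_of_ne hji]
      have := le_mx g v y j
      linarith

/-- integrated increase -/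
theorem intmx_inc [DecidableEq ι] {g : ι → Ω → ℝ} (hp : ∀ i y, 0 < g i y)
    (hm : ∀ i, Measurable (g i)) (hi : ∀ i, Integrable (g i) μ) (v : ι → ℝ) (i : ι) (e : ℝ)
    (he : 0 ≤ e) :
    (∫ y, mx g (Function.update v i (v i + e)) y ∂μ) - ∫ y, mx g v y ∂μ ≤
      e * ∫ y in cl g (Function.update v i (v i + e)) i, g i y ∂μ := by
  rw [← integral_sub (mx_int hp hm hi _) (mx_int hp hm hi _),
    ← integral_indicator (cl_meas hm _ i), ← integral_const_mul]
  exact integral_mono ((mx_int hp hm hi _).sub (mx_int hp hm hi _))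
    (((hi i).indicator (cl_meas hm _ i)).const_mul _) (fun y => mx_inc hp v i e he y)

/-- integrated decrease -/
theorem intmx_dec [DecidableEq ι] {g : ι → Ω → ℝ} (hp : ∀ i y, 0 < g i y)
    (hm : ∀ i, Measurable (g i)) (hi : ∀ i, Integrable (g i) μ) (v : ι → ℝ) (i : ι) (e : ℝ)
    (he : 0 ≤ e) :
    (∫ y, mx g (Function.update v i (v i - e)) y ∂μ) - ∫ y, mx g v y ∂μ ≤
      -(e * ∫ y in cl g (Function.update v i (v i - e)) i, g i y ∂μ) := by
  rw [← integral_sub (mx_int hp hm hi _) (mx_int hp hm hi _),
    ← integral_indicator (cl_meas hm _ i), ← integral_const_mul, ← integral_neg]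
  exact integral_mono ((mx_int hp hm hi _).sub (mx_int hp hm hi _))
    (((hi i).indicator (cl_meas hm _ i)).const_mul _).neg (fun y => mx_dec hp v i e he y)

/-- the integral of the maximum is at most the weighted sum over the open cells -/
theorem intmx_le {g : ι → Ω → ℝ} (hp : ∀ i y, 0 < g i y)
    (hm : ∀ i, Measurable (g i)) (hi : ∀ i, Integrable (g i) μ)
    (ht : ∀ i j, i ≠ j → ∀ a : ℝ, 0 < a → μ {y | g i y = a * g j y} = 0)
    {v : ι → ℝ} (hv : ∀ i, 0 < v i) :
    ∫ y, mx g v y ∂μ ≤ ∑ i, v i * ∫ y in op g v i, g i y ∂μ := by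
  have e1 : ∑ i, v i * ∫ y in op g v i, g i y ∂μ =
      ∫ y, ∑ i, v i * (op g v i).indicator (g i) y ∂μ := by
    rw [integral_finsetSum _ (fun i _ => ((hi i).indicator (op_meas hm _ i)).const_mul _)]
    refine Finset.sum_congr rfl (fun i _ => ?_)
    rw [integral_const_mul, integral_indicator (op_meas hm _ i)]
  rw [e1]
  refine integral_mono_ae (mx_int hp hm hi v)
    (integrable_finsetSum _ (fun i _ => ((hi i).indicator (op_meas hm _ i)).const_mul _)) ?_
  filter_upwards [ae_noties ht hv] with y hy
  obtain ⟨i, hmi⟩ := mx_attained g v y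
  have hop : y ∈ op g v i := by
    intro j hj
    refine lt_of_le_of_ne ?_ (hy j i hj)
    rw [← hmi]
    exact le_mx g v y j
  have h1 : v i * (op g v i).indicator (g i) y ≤ ∑ i, v i * (op g v i).indicator (g i) y :=
    Finset.single_le_sum (f := fun i => v i * (op g v i).indicator (g i) y)
      (fun j _ => mul_nonneg (hv j).le (indicator_nonneg (fun z _ => (hp j z).le) y))
      (Finset.mem_univ i)
  rw [indicator_of_mem hop] at h1
  rw [hmi]
  exact h1

theorem lint_sup_le {g : ι → Ω → ℝ} (hp : ∀ i y, 0 < g i y)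
    (hm : ∀ i, Measurable (g i)) (hi : ∀ i, Integrable (g i) μ)
    {v : ι → ℝ} (hv : ∀ i, 0 < v i) :
    ∫⁻ y, ⨆ i, ENNReal.ofReal (v i * g i y) ∂μ ≤ ENNReal.ofReal (∫ y, mx g v y ∂μ) := by
  have hnn : ∀ y, 0 ≤ mx g v y := by
    intro y
    obtain ⟨i, hi⟩ := mx_attained g v y
    rw [hi]
    exact (mul_pos (hv i) (hp i y)).le
  rw [ofReal_integral_eq_lintegral_ofReal (mx_int hp hm hi v) (Eventually.of_forall hnn)]
  refine lintegral_mono (fun y => ?_)
  exact iSup_le (fun i => ENNReal.ofReal_le_ofReal (le_mx g v y i))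

end single

theorem pf_kkt : T_KKT := by
  intro Ω _ μ ι κ _ _ _ g hpos hmeas hint htie ε hε
  classical
  rcases isEmpty_or_nonempty ι with hι | hι
  · refine ⟨fun _ _ => 1, fun _ => 0, fun _ i => (hι.false i).elim, fun i => (hι.false i).elim,
      fun i => (hι.false i).elim, fun _ i => (hι.false i).elim, ?_⟩
    simp
  set N : ℝ := (Fintype.card κ : ℝ) with hN
  have hNpos : 0 < N := by
    rw [hN]; exact_mod_cast Fintype.card_pos
  set M : ℝ := ∑ k, ∑ i, ∫ y, g k i y ∂μ with hM
  have hInn : ∀ k i, 0 ≤ ∫ y, g k i y ∂μ := fun k i => integral_nonneg (fun y => (hpos k i y).le)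
  have hMnn : 0 ≤ M := Finset.sum_nonneg fun k _ => Finset.sum_nonneg fun i _ => hInn k i
  set e0 : ℝ := min (1 / N) (ε / (M + 1)) with he0
  have he0pos : 0 < e0 := lt_min (by positivity) (by positivity)
  have he0M : e0 * M ≤ ε := by
    have h1 : e0 ≤ ε / (M + 1) := min_le_right _ _
    calc e0 * M ≤ ε / (M + 1) * M := mul_le_mul_of_nonneg_right h1 hMnn
      _ ≤ ε / (M + 1) * (M + 1) := mul_le_mul_of_nonneg_left (by linarith) (by positivity)
      _ = ε := by field_simp
  -- the compact set
  set W : (κ → ι → ℝ) → ℝ := fun u => ∑ k, ∫ y, mx (g k) (u k) y ∂μ with hW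
  set Ks : Set (κ → ι → ℝ) := {u | (∀ k i, e0 ≤ u k i) ∧ ∀ i, ∑ k, u k i = 1} with hKs
  have hcomp : IsCompact Ks := by
    have h1 : IsCompact (Set.Icc (fun _ _ => e0 : κ → ι → ℝ) (fun _ _ => 1)) := isCompact_Icc
    refine h1.of_isClosed_subset ?_ ?_
    · have : Ks = (⋂ k, ⋂ i, {u : κ → ι → ℝ | e0 ≤ u k i}) ∩ ⋂ i, {u | ∑ k, u k i = 1} := by
        ext u; simp [hKs]
      rw [this]
      refine IsClosed.inter ?_ ?_
      · exact isClosed_iInter fun k => isClosed_iInter fun i =>
          isClosed_le continuous_const (by fun_prop)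
      · exact isClosed_iInter fun i => isClosed_eq (by fun_prop) continuous_const
    · intro u hu
      refine ⟨fun k i => hu.1 k i, fun k i => ?_⟩
      have h2 : u k i ≤ ∑ k, u k i :=
        Finset.single_le_sum (f := fun k => u k i)
          (fun k' _ => le_trans he0pos.le (hu.1 k' i)) (Finset.mem_univ k)
      rw [hu.2 i] at h2
      exact h2
  have hne : Ks.Nonempty := by
    refine ⟨fun _ _ => 1 / N, fun _ _ => min_le_left _ _, fun i => ?_⟩
    rw [Finset.sum_const, Finset.card_univ, nsmul_eq_mul, ← hN]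
    field_simp
  have hcont : Continuous W := by
    rw [continuous_iff_continuousAt]
    intro u
    rw [ContinuousAt, tendsto_iff_dist_tendsto_zero]
    have hb : ∀ v, dist (W v) (W u) ≤ ∑ k, ∑ i, |v k i - u k i| * ∫ y, g k i y ∂μ := by
      intro v
      rw [Real.dist_eq, hW]
      simp only
      rw [← Finset.sum_sub_distrib]
      refine le_trans (Finset.abs_sum_le_sum_abs _ _) (Finset.sum_le_sum fun k _ => ?_)
      exact intmx_lip (hpos k) (hmeas k) (hint k) (v k) (u k)
    refine squeeze_zero (fun v => dist_nonneg) hb ?_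
    have hc : Continuous (fun v : κ → ι → ℝ => ∑ k, ∑ i, |v k i - u k i| * ∫ y, g k i y ∂μ) := by
      fun_prop
    have := hc.tendsto u
    simpa using this
  obtain ⟨u, huK, humin⟩ := hcomp.exists_isMinOn hne hcont.continuousOn
  have hupos : ∀ k i, 0 < u k i := fun k i => lt_of_lt_of_le he0pos (huK.1 k i)
  -- the integrals over the cells
  set Gk : κ → ι → ℝ := fun k i => ∫ y in op (g k) (u k) i, g k i y ∂μ with hGk
  have hGnn : ∀ k i, 0 ≤ Gk k i := fun k i => integral_nonneg (fun y => (hpos k i y).le)
  have hGle : ∀ k i, Gk k i ≤ ∫ y, g k i y ∂μ := fun k i =>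
    setIntegral_le_integral (hint k i) (Eventually.of_forall fun y => (hpos k i y).le)
  -- the first order condition
  have hkey : ∀ k k' i, e0 < u k i → Gk k i ≤ Gk k' i := by
    intro k k' i hki
    by_cases hkk : k' = k
    · rw [hkk]
    set δ : ℝ := u k i - e0 with hδ
    have hδpos : 0 < δ := by rw [hδ]; linarith
    have hstep : ∀ e : ℝ, 0 < e → e ≤ δ →
        ∫ y in cl (g k) (Function.update (u k) i (u k i - e)) i, g k i y ∂μ ≤
          ∫ y in cl (g k') (Function.update (u k') i (u k' i + e)) i, g k' i y ∂μ := by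
      intro e he heδ
      set w : κ → ι → ℝ := Function.update (Function.update u k
        (Function.update (u k) i (u k i - e))) k' (Function.update (u k') i (u k' i + e)) with hw
      have hwk' : w k' = Function.update (u k') i (u k' i + e) := by
        rw [hw, Function.update_self]
      have hwk : w k = Function.update (u k) i (u k i - e) := by
        rw [hw, Function.update_of_ne (Ne.symm hkk), Function.update_self]
      have hwo : ∀ l, l ≠ k → l ≠ k' → w l = u l := by
        intro l h1 h2
        rw [hw, Function.update_of_ne h2, Function.update_of_ne h1]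
      have hsplit : ∀ f : κ → ℝ, ∑ l, f l = f k + f k' + ∑ l ∈ (Finset.univ.erase k).erase k', f l := by
        intro f
        rw [← Finset.add_sum_erase _ f (Finset.mem_univ k),
          ← Finset.add_sum_erase (Finset.univ.erase k) f
            (Finset.mem_erase.mpr ⟨hkk, Finset.mem_univ k'⟩)]
        ring
      have hrest : ∀ f : κ → (ι → ℝ) → ℝ, ∑ l ∈ (Finset.univ.erase k).erase k', f l (w l) =
          ∑ l ∈ (Finset.univ.erase k).erase k', f l (u l) := by
        intro f
        refine Finset.sum_congr rfl (fun l hl => ?_)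
        rw [Finset.mem_erase, Finset.mem_erase] at hl
        rw [hwo l hl.2.1 hl.1]
      have hwK : w ∈ Ks := by
        refine ⟨fun l j => ?_, fun j => ?_⟩
        · by_cases h1 : l = k'
          · subst h1
            rw [hwk']
            by_cases hj : j = i
            · subst hj
              rw [Function.update_self]
              have := huK.1 l j
              linarith
            · rw [Function.update_of_ne hj]
              exact huK.1 l j
          · by_cases h2 : l = k
            · subst h2
              rw [hwk]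
              by_cases hj : j = i
              · subst hj
                rw [Function.update_self]
                linarith
              · rw [Function.update_of_ne hj]
                exact huK.1 l j
            · rw [hwo l h2 h1]
              exact huK.1 l j
        · have h1 := huK.2 j
          rw [hsplit] at h1 ⊢
          rw [hrest (fun _ v => v j), hwk, hwk']
          by_cases hj : j = i
          · subst hj
            rw [Function.update_self, Function.update_self]
            linarith
          · rw [Function.update_of_ne hj, Function.update_of_ne hj]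
            exact h1
      have hmin : W u ≤ W w := humin hwK
      have hWu : W u = (∫ y, mx (g k) (u k) y ∂μ) + (∫ y, mx (g k') (u k') y ∂μ) +
          ∑ l ∈ (Finset.univ.erase k).erase k', ∫ y, mx (g l) (u l) y ∂μ := hsplit _
      have hWw : W w = (∫ y, mx (g k) (w k) y ∂μ) + (∫ y, mx (g k') (w k') y ∂μ) +
          ∑ l ∈ (Finset.univ.erase k).erase k', ∫ y, mx (g l) (w l) y ∂μ := hsplit _
      rw [hWu, hWw, hrest (fun l v => ∫ y, mx (g l) v y ∂μ), hwk, hwk'] at hmin
      have hd := intmx_dec (hpos k) (hmeas k) (hint k) (u k) i e he.le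
      have hi' := intmx_inc (hpos k') (hmeas k') (hint k') (u k') i e he.le
      have : e * ∫ y in cl (g k) (Function.update (u k) i (u k i - e)) i, g k i y ∂μ ≤
          e * ∫ y in cl (g k') (Function.update (u k') i (u k' i + e)) i, g k' i y ∂μ := by
        linarith
      exact le_of_mul_le_mul_left this he
    -- the limit
    have hseq : Tendsto (fun n : ℕ => δ / ((n : ℝ) + 1)) atTop (𝓝 0) := by
      have := tendsto_one_div_add_atTop_nhds_zero_nat (𝕜 := ℝ)
      have h2 := this.const_mul δ
      simpa [div_eq_mul_inv] using h2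
    have hl1 := cell_tendsto (hpos k) (hmeas k) (hint k) (htie k) (hupos k)
      (fun n => Function.update (u k) i (u k i - δ / ((n : ℝ) + 1))) (by
        intro j
        by_cases hj : j = i
        · subst hj
          simp only [Function.update_self]
          simpa using hseq.const_sub (u k j)
        · simp only [Function.update_of_ne hj]
          exact tendsto_const_nhds) i
    have hl2 := cell_tendsto (hpos k') (hmeas k') (hint k') (htie k') (hupos k')
      (fun n => Function.update (u k') i (u k' i + δ / ((n : ℝ) + 1))) (by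
        intro j
        by_cases hj : j = i
        · subst hj
          simp only [Function.update_self]
          simpa using hseq.const_add (u k' j)
        · simp only [Function.update_of_ne hj]
          exact tendsto_const_nhds) i
    refine le_of_tendsto_of_tendsto' hl1 hl2 (fun n => ?_)
    refine hstep (δ / ((n : ℝ) + 1)) (by positivity) ?_
    exact div_le_self hδpos.le (by linarith [Nat.cast_nonneg (α := ℝ) n])
  -- the minimal value
  set G : ι → ℝ := fun i => Finset.univ.inf' Finset.univ_nonempty (fun k => Gk k i) with hG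
  have hGG : ∀ k i, G i ≤ Gk k i := fun k i =>
    Finset.inf'_le (fun k => Gk k i) (Finset.mem_univ k)
  have hG0 : ∀ i, 0 ≤ G i := by
    intro i
    rw [hG]
    exact (Finset.le_inf'_iff _ _).mpr fun k _ => hGnn k i
  have hterm : ∀ k i, u k i * Gk k i ≤ u k i * G i + e0 * Gk k i := by
    intro k i
    by_cases h : e0 < u k i
    · have h1 : Gk k i ≤ G i := (Finset.le_inf'_iff _ _).mpr fun k' _ => hkey k k' i h
      have h2 : u k i * Gk k i ≤ u k i * G i := mul_le_mul_of_nonneg_left h1 (hupos k i).le
      have h3 : 0 ≤ e0 * Gk k i := mul_nonneg he0pos.le (hGnn k i)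
      linarith
    · have h1 : u k i = e0 := le_antisymm (not_lt.mp h) (huK.1 k i)
      have h3 : 0 ≤ u k i * G i := mul_nonneg (hupos k i).le (hG0 i)
      rw [h1] at h3 ⊢
      linarith
  have hWle : W u ≤ ∑ i, G i + ε := by
    have h1 : W u ≤ ∑ k, ∑ i, u k i * Gk k i := by
      refine Finset.sum_le_sum fun k _ => ?_
      exact intmx_le (hpos k) (hmeas k) (hint k) (htie k) (hupos k)
    have h2 : ∑ k, ∑ i, u k i * Gk k i ≤ ∑ k, ∑ i, (u k i * G i + e0 * Gk k i) :=
      Finset.sum_le_sum fun k _ => Finset.sum_le_sum fun i _ => hterm k i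
    have h3 : ∑ k, ∑ i, (u k i * G i + e0 * Gk k i) =
        ∑ i, G i + e0 * ∑ k, ∑ i, Gk k i := by
      simp_rw [Finset.sum_add_distrib]
      congr 1
      · rw [Finset.sum_comm]
        refine Finset.sum_congr rfl fun i _ => ?_
        rw [← Finset.sum_mul, huK.2 i, one_mul]
      · rw [Finset.mul_sum]
        refine Finset.sum_congr rfl fun k _ => ?_
        rw [Finset.mul_sum]
    have h4 : ∑ k, ∑ i, Gk k i ≤ M :=
      Finset.sum_le_sum fun k _ => Finset.sum_le_sum fun i _ => hGle k i
    have h5 : e0 * ∑ k, ∑ i, Gk k i ≤ ε :=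
      le_trans (mul_le_mul_of_nonneg_left h4 he0pos.le) he0M
    linarith
  refine ⟨u, G, hupos, huK.2, hG0, ?_, ?_⟩
  · intro k i
    have h1 : ENNReal.ofReal (Gk k i) =
        ∫⁻ y in op (g k) (u k) i, ENNReal.ofReal (g k i y) ∂μ := by
      rw [hGk]
      exact ofReal_integral_eq_lintegral_ofReal (hint k i).integrableOn
        (Eventually.of_forall fun y => (hpos k i y).le)
    calc ENNReal.ofReal (G i) ≤ ENNReal.ofReal (Gk k i) := ENNReal.ofReal_le_ofReal (hGG k i)
      _ = _ := h1
  · have h1 : ∑ k, ∫⁻ y, ⨆ i, ENNReal.ofReal (u k i * g k i y) ∂μ ≤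
        ∑ k, ENNReal.ofReal (∫ y, mx (g k) (u k) y ∂μ) :=
      Finset.sum_le_sum fun k _ => lint_sup_le (hpos k) (hmeas k) (hint k) (hupos k)
    have hnn : ∀ k, 0 ≤ ∫ y, mx (g k) (u k) y ∂μ := by
      intro k
      refine integral_nonneg (fun y => ?_)
      obtain ⟨i, hi⟩ := mx_attained (g k) (u k) y
      rw [hi]
      exact (mul_pos (hupos k i) (hpos k i y)).le
    have h2 : ∑ k, ENNReal.ofReal (∫ y, mx (g k) (u k) y ∂μ) = ENNReal.ofReal (W u) :=
      (ENNReal.ofReal_sum_of_nonneg (fun k _ => hnn k)).symm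
    calc _ ≤ _ := h1
      _ = _ := h2
      _ ≤ _ := ENNReal.ofReal_le_ofReal hWle

end Pool.Agent.H80.PK
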